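import Mathlib

/-!
# MP_3cd2af_an : entropy of reordered compositions of three logistic maps

For `a₁ = 12/5`, `a₂ = 6/5`, `a₃ = 4` the map `f₁ ∘ f₂ ∘ f₃` has a horseshoe: each of the disjoint
intervals `[0, 7/50]` and `[3/20, 1/2]` is mapped onto a set containing `[0, 1/2]`, so its entropy is
at least `log 2`.  For `f₁ ∘ f₃ ∘ f₂` the interval `[1008/3125, 1/2]` is invariant and the map is
decreasing on it, and the whole interval `[0, 1]` is a union of `6 n + 9` sets on each of which all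
iterates up to the `n`-th are monotone, so its entropy is zero.
-/

open Set Filter Topology

namespace Pool.Agent.Results.MP_3cd2af_an.ReorderedLogistic

/-- The least number of members of the family `U` which cover the space. -/
noncomputable def minCover {X : Type} (U : Set (Set X)) : ℕ :=
  sInf {k | ∃ s : Finset (Set X), (s : Set (Set X)) ⊆ U ∧ ⋃₀ (s : Set (Set X)) = univ ∧ s.card = k}

/-- The join of `U`, `F⁻¹ U`, ..., `F⁻⁽ⁿ⁻¹⁾ U`. -/
def join {X : Type} (F : X → X) (U : Set (Set X)) (n : ℕ) : Set (Set X) :=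
  {A | ∃ u : Fin n → Set X, (∀ i, u i ∈ U) ∧ A = ⋂ i : Fin n, F^[(i : ℕ)] ⁻¹' u i}

/-- The entropy of `F` relative to the cover `U`. -/
noncomputable def entropyOf {X : Type} (F : X → X) (U : Set (Set X)) : EReal :=
  limsup (fun n : ℕ => ((Real.log (minCover (join F U n)) / n : ℝ) : EReal)) atTop

/-- Topological entropy in the sense of Adler, Konheim and McAndrew. -/
noncomputable def entropy {X : Type} [TopologicalSpace X] (F : X → X) : EReal :=
  ⨆ U ∈ {U : Set (Set X) | (∀ A ∈ U, IsOpen A) ∧ ⋃₀ U = univ}, entropyOf F U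

/-- The logistic map `x ↦ a x (1 - x)` of `[0, 1]`, for `a ∈ [1, 4]`. -/
noncomputable def logistic (a : Icc (1 : ℝ) 4) (x : Icc (0 : ℝ) 1) : Icc (0 : ℝ) 1 :=
  ⟨a.1 * x.1 * (1 - x.1), by
    obtain ⟨a, ha1, ha4⟩ := a
    obtain ⟨x, hx0, hx1⟩ := x
    have h1 : x * (1 - x) ≤ 1 / 4 := by nlinarith [sq_nonneg (x - 1 / 2)]
    have h2 : 0 ≤ x * (1 - x) := mul_nonneg hx0 (by linarith)
    constructor
    · show 0 ≤ a * x * (1 - x)
      nlinarith
    · show a * x * (1 - x) ≤ 1
      nlinarith⟩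

abbrev I := Icc (0 : ℝ) 1

/-! ### Lower bound from a horseshoe -/

theorem exists_word {X : Type} (F : X → X) (J A B : Set X) (x0 : X) (h0 : x0 ∈ J) (hA : A ⊆ J)
    (hB : B ⊆ J) (hFA : ∀ y ∈ J, ∃ x ∈ A, F x = y) (hFB : ∀ y ∈ J, ∃ x ∈ B, F x = y) :
    ∀ (n : ℕ) (w : Fin n → Bool), ∃ x ∈ J, ∀ i : Fin n,
      (w i = true → F^[(i : ℕ)] x ∈ A) ∧ (w i = false → F^[(i : ℕ)] x ∈ B) := by
  intro n
  induction n with
  | zero => intro w; exact ⟨x0, h0, fun i => i.elim0⟩
  | succ n ih =>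
    intro w
    obtain ⟨y, hy, hyw⟩ := ih (fun i => w i.succ)
    cases h : w 0 with
    | true =>
      obtain ⟨x, hx, hxy⟩ := hFA y hy
      refine ⟨x, hA hx, fun i => ?_⟩
      refine Fin.cases ?_ (fun j => ?_) i
      · simp [h, hx]
      · simpa [Function.iterate_succ_apply, hxy] using hyw j
    | false =>
      obtain ⟨x, hx, hxy⟩ := hFB y hy
      refine ⟨x, hB hx, fun i => ?_⟩
      refine Fin.cases ?_ (fun j => ?_) i
      · simp [h, hx]
      · simpa [Function.iterate_succ_apply, hxy] using hyw j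

theorem two_pow_le {X : Type} (F : X → X) (J A B : Set X) (x0 : X) (h0 : x0 ∈ J) (hA : A ⊆ J)
    (hB : B ⊆ J) (hFA : ∀ y ∈ J, ∃ x ∈ A, F x = y) (hFB : ∀ y ∈ J, ∃ x ∈ B, F x = y)
    (hAB : Disjoint A B) (n : ℕ) : 2 ^ n ≤ minCover (join F {Aᶜ, Bᶜ} n) := by
  classical
  have hfin : (join F {Aᶜ, Bᶜ} n).Finite := by
    have : join F {Aᶜ, Bᶜ} n ⊆ (fun u : Fin n → Set X => ⋂ i : Fin n, F^[(i : ℕ)] ⁻¹' u i) ''
        (Set.pi univ fun _ => ({Aᶜ, Bᶜ} : Set (Set X))) := by
      rintro T ⟨u, hu, rfl⟩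
      exact ⟨u, by simpa using hu, rfl⟩
    exact (Set.Finite.image _ (Set.Finite.pi fun _ => by simp)).subset this
  unfold minCover
  refine le_csInf ⟨hfin.toFinset.card, hfin.toFinset, by simp, ?_, rfl⟩ ?_
  · rw [Set.Finite.coe_toFinset]
    refine eq_univ_of_forall fun x => ?_
    have hx : ∀ i : Fin n, ∃ u ∈ ({Aᶜ, Bᶜ} : Set (Set X)), F^[(i : ℕ)] x ∈ u := by
      intro i
      by_cases h : F^[(i : ℕ)] x ∈ A
      · exact ⟨Bᶜ, by simp, fun hb => Set.disjoint_left.1 hAB h hb⟩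
      · exact ⟨Aᶜ, by simp, h⟩
    choose u hu hxu using hx
    exact ⟨_, ⟨u, hu, rfl⟩, by simpa using hxu⟩
  · rintro k ⟨s, hs, hsu, rfl⟩
    choose x hxJ hxw using exists_word F J A B x0 h0 hA hB hFA hFB n
    have hex : ∀ w : Fin n → Bool, ∃ T ∈ s, x w ∈ T := by
      intro w
      have : x w ∈ ⋃₀ (s : Set (Set X)) := by rw [hsu]; trivial
      obtain ⟨T, hT, hxT⟩ := this
      exact ⟨T, hT, hxT⟩
    choose T hTs hxT using hex
    have hinj : Function.Injective T := by
      intro w w' hww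
      obtain ⟨u, hu, hTu⟩ := hs (hTs w)
      have h1 : ∀ i : Fin n, F^[(i : ℕ)] (x w) ∈ u i := by
        have := hxT w
        rw [hTu] at this
        simpa using this
      have h2 : ∀ i : Fin n, F^[(i : ℕ)] (x w') ∈ u i := by
        have := hxT w'
        rw [← hww, hTu] at this
        simpa using this
      funext i
      have key : ∀ v : Fin n → Bool, F^[(i : ℕ)] (x v) ∈ u i → (v i = true ↔ u i ≠ Aᶜ) := by
        intro v hv
        constructor
        · intro hvi he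
          rw [he] at hv
          exact hv ((hxw v i).1 hvi)
        · intro hne
          by_contra hvi
          have hvi' : v i = false := by simpa using hvi
          have hui := hu i
          simp only [mem_insert_iff, mem_singleton_iff] at hui
          rcases hui with h | h
          · exact hne h
          · rw [h] at hv
            exact hv ((hxw v i).2 hvi')
      have k1 := key w (h1 i)
      have k2 := key w' (h2 i)
      rcases hw : w i with _ | _ <;> rcases hw' : w' i with _ | _ <;> simp_all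
    have hcard : Fintype.card (Fin n → Bool) ≤ s.card := by
      rw [← Finset.card_univ]
      exact Finset.card_le_card_of_injOn T (fun w _ => hTs w) (hinj.injOn)
    simpa using hcard

theorem entropy_ge {X : Type} [TopologicalSpace X] (F : X → X) (J A B : Set X) (x0 : X)
    (h0 : x0 ∈ J) (hA : A ⊆ J)
    (hB : B ⊆ J) (hFA : ∀ y ∈ J, ∃ x ∈ A, F x = y) (hFB : ∀ y ∈ J, ∃ x ∈ B, F x = y)
    (hAB : Disjoint A B) (hAc : IsClosed A) (hBc : IsClosed B) :
    ((Real.log 2 : ℝ) : EReal) ≤ entropy F := by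
  have hU : ({Aᶜ, Bᶜ} : Set (Set X)) ∈ {U : Set (Set X) | (∀ A ∈ U, IsOpen A) ∧ ⋃₀ U = univ} := by
    refine ⟨?_, ?_⟩
    · intro T hT
      simp only [mem_insert_iff, mem_singleton_iff] at hT
      rcases hT with rfl | rfl
      · exact hAc.isOpen_compl
      · exact hBc.isOpen_compl
    · refine eq_univ_of_forall fun x => ?_
      by_cases h : x ∈ A
      · exact ⟨Bᶜ, by simp, fun hb => Set.disjoint_left.1 hAB h hb⟩
      · exact ⟨Aᶜ, by simp, h⟩
  refine le_trans ?_ (le_iSup₂ (f := fun U _ => entropyOf F U) _ hU)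
  unfold entropyOf
  refine le_limsup_of_frequently_le ?_ (by isBoundedDefault)
  refine Eventually.frequently ?_
  filter_upwards [eventually_ge_atTop 1] with n hn
  have h := two_pow_le F J A B x0 h0 hA hB hFA hFB hAB n
  have hn' : (0 : ℝ) < n := by exact_mod_cast hn
  rw [EReal.coe_le_coe_iff, le_div_iff₀ hn']
  have h2 : ((2 : ℝ) ^ n) ≤ (minCover (join F {Aᶜ, Bᶜ} n) : ℝ) := by exact_mod_cast h
  calc Real.log 2 * n = Real.log ((2 : ℝ) ^ n) := by rw [Real.log_pow]; ring
    _ ≤ _ := Real.log_le_log (by positivity) h2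

/-! ### Upper bound from monotone pieces -/

/-- All iterates `F^i`, `i < n`, are monotone (or antitone) on `S`. -/
def Mono (F : I → I) (n : ℕ) (S : Set I) : Prop :=
  ∀ i < n, MonotoneOn F^[i] S ∨ AntitoneOn F^[i] S

/-- `A` is covered by at most `L` sets on which the first `n` iterates are monotone. -/
def Cov (F : I → I) (n : ℕ) (A : Set I) (L : ℕ) : Prop :=
  ∃ s : Finset (Set I), s.card ≤ L ∧ A ⊆ ⋃₀ (s : Set (Set I)) ∧ ∀ S ∈ s, Mono F n S

variable {F : I → I} {n : ℕ} {A B S : Set I} {L L' : ℕ}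

theorem Cov.union (h1 : Cov F n A L) (h2 : Cov F n B L') : Cov F n (A ∪ B) (L + L') := by
  classical
  obtain ⟨s, hs, hsA, hsM⟩ := h1
  obtain ⟨t, ht, htB, htM⟩ := h2
  refine ⟨s ∪ t, (Finset.card_union_le s t).trans (by omega), ?_, ?_⟩
  · rw [Finset.coe_union, sUnion_union]
    exact union_subset_union hsA htB
  · intro T hT
    rcases Finset.mem_union.1 hT with h | h
    · exact hsM T h
    · exact htM T h

theorem Cov.of_le (h : Cov F n A L) (hB : B ⊆ A) (hL : L ≤ L') : Cov F n B L' := by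
  obtain ⟨s, hs, hsA, hsM⟩ := h
  exact ⟨s, hs.trans hL, hB.trans hsA, hsM⟩

theorem cov_zero (F : I → I) (A : Set I) : Cov F 0 A 1 :=
  ⟨{A}, by simp, by simp, by intro T _ i hi; omega⟩

theorem Cov.step (h : Cov F n A L) (hS : MonotoneOn F S ∨ AntitoneOn F S) (hm : MapsTo F S A) :
    Cov F (n + 1) S L := by
  classical
  obtain ⟨s, hs, hsA, hsM⟩ := h
  refine ⟨s.image fun T => S ∩ F ⁻¹' T, Finset.card_image_le.trans hs, ?_, ?_⟩
  · intro x hx
    obtain ⟨T, hT, hxT⟩ := hsA (hm hx)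
    exact ⟨S ∩ F ⁻¹' T, by simpa using ⟨T, hT, rfl⟩, hx, hxT⟩
  · intro T' hT'
    obtain ⟨T, hT, rfl⟩ := Finset.mem_image.1 hT'
    intro i hi
    cases i with
    | zero => exact Or.inl (monotoneOn_id)
    | succ i =>
      have h1 := hsM T hT i (by omega)
      have key : ∀ x, F^[i + 1] x = F^[i] (F x) := fun x => Function.iterate_succ_apply F i x
      rcases h1 with h1 | h1 <;> rcases hS with h2 | h2
      · left
        intro x hx y hy hxy
        rw [key, key]
        exact h1 hx.2 hy.2 (h2 hx.1 hy.1 hxy)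
      · right
        intro x hx y hy hxy
        rw [key, key]
        exact h1 hy.2 hx.2 (h2 hx.1 hy.1 hxy)
      · right
        intro x hx y hy hxy
        rw [key, key]
        exact h1 hx.2 hy.2 (h2 hx.1 hy.1 hxy)
      · left
        intro x hx y hy hxy
        rw [key, key]
        exact h1 hy.2 hx.2 (h2 hx.1 hy.1 hxy)

/-- The code of a point of `[0, 1]`. -/
noncomputable def code (M : ℕ) (x : I) : ℕ := ⌊(M : ℝ) * (x : ℝ)⌋₊

theorem code_le (M : ℕ) (x : I) : code M x ≤ M := by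
  unfold code
  have h : (M : ℝ) * (x : ℝ) ≤ M := by
    have := x.2.2
    have hM : (0 : ℝ) ≤ M := Nat.cast_nonneg M
    nlinarith
  exact_mod_cast (Nat.floor_mono h).trans (by simp)

theorem code_mono (M : ℕ) {x y : I} (h : x ≤ y) : code M x ≤ code M y := by
  unfold code
  apply Nat.floor_mono
  have h' : (x : ℝ) ≤ y := h
  have hM : (0 : ℝ) ≤ M := Nat.cast_nonneg M
  nlinarith

theorem dist_lt_of_code (M : ℕ) (hM : 1 ≤ M) {x y : I} (h : code M x = code M y) :
    dist x y < 1 / M := by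
  have hM' : (0 : ℝ) < M := by exact_mod_cast hM
  have h1 := Nat.floor_le (a := (M : ℝ) * (x : ℝ)) (mul_nonneg hM'.le x.2.1)
  have h2 := Nat.lt_floor_add_one ((M : ℝ) * (x : ℝ))
  have h3 := Nat.floor_le (a := (M : ℝ) * (y : ℝ)) (mul_nonneg hM'.le y.2.1)
  have h4 := Nat.lt_floor_add_one ((M : ℝ) * (y : ℝ))
  unfold code at h
  rw [h] at h1 h2
  rw [Subtype.dist_eq, Real.dist_eq, lt_div_iff₀ hM', ← abs_of_pos hM', ← abs_mul, abs_lt]
  constructor <;> nlinarith

open Classical in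
/-- The total code of a point of `S`. -/
noncomputable def total (F : I → I) (n M : ℕ) (S : Set I) (x : I) : ℕ :=
  ∑ i ∈ Finset.range n, if MonotoneOn F^[i] S then code M (F^[i] x) else M - code M (F^[i] x)

theorem total_le (F : I → I) (n M : ℕ) (S : Set I) (x : I) : total F n M S x ≤ n * M := by
  classical
  unfold total
  refine (Finset.sum_le_card_nsmul _ _ M ?_).trans (by simp)
  intro i _
  split_ifs
  · exact code_le M _
  · omega

theorem dist_of_total {M : ℕ} (hM : 1 ≤ M) (hS : Mono F n S) {x y : I} (hx : x ∈ S) (hy : y ∈ S)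
    (h : total F n M S x = total F n M S y) {i : ℕ} (hi : i < n) :
    dist (F^[i] x) (F^[i] y) < 1 / M := by
  classical
  wlog hxy : x ≤ y generalizing x y with H
  · rw [dist_comm]
    exact H hy hx h.symm (le_of_not_ge hxy)
  have hle : ∀ j ∈ Finset.range n,
      (if MonotoneOn F^[j] S then code M (F^[j] x) else M - code M (F^[j] x)) ≤
      (if MonotoneOn F^[j] S then code M (F^[j] y) else M - code M (F^[j] y)) := by
    intro j hj
    split_ifs with hj'
    · exact code_mono M (hj' hx hy hxy)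
    · have := (hS j (Finset.mem_range.1 hj)).resolve_left hj'
      have := code_mono M (this hx hy hxy)
      omega
  have heq := (Finset.sum_eq_sum_iff_of_le hle).1 h i (Finset.mem_range.2 hi)
  apply dist_lt_of_code M hM
  split_ifs at heq
  · exact heq
  · have h1 := code_le M (F^[i] x)
    have h2 := code_le M (F^[i] y)
    omega

theorem minCover_le {M : ℕ} (hM : 1 ≤ M) {δ : ℝ} (hδ : 1 / (M : ℝ) < δ) {U : Set (Set I)}
    (hU : ∀ x : I, ∃ A ∈ U, Metric.ball x δ ⊆ A) (h : Cov F n univ L) :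
    minCover (join F U n) ≤ L * (n * M + 1) := by
  classical
  obtain ⟨s, hs, hsA, hsM⟩ := h
  choose a haU ha using hU
  let T : Set I × ℕ → Set I := fun p => {x | x ∈ p.1 ∧ total F n M p.1 x = p.2}
  let W : Set I × ℕ → Set I := fun p =>
    if hp : (T p).Nonempty then ⋂ i : Fin n, F^[(i : ℕ)] ⁻¹' a (F^[(i : ℕ)] hp.choose) else ∅
  let P : Finset (Set I × ℕ) := (s ×ˢ Finset.range (n * M + 1)).filter fun p => (T p).Nonempty
  have hcard : (P.image W).card ≤ L * (n * M + 1) := by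
    calc (P.image W).card ≤ P.card := Finset.card_image_le
      _ ≤ (s ×ˢ Finset.range (n * M + 1)).card := Finset.card_filter_le _ _
      _ = s.card * (n * M + 1) := by rw [Finset.card_product, Finset.card_range]
      _ ≤ _ := Nat.mul_le_mul_right _ hs
  refine le_trans (Nat.sInf_le ⟨P.image W, ?_, ?_, rfl⟩) hcard
  · intro A hA
    obtain ⟨p, hp, rfl⟩ := Finset.mem_image.1 (Finset.mem_coe.1 hA)
    have hp' := (Finset.mem_filter.1 hp).2
    refine ⟨fun i => a (F^[(i : ℕ)] hp'.choose), fun i => haU _, ?_⟩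
    simp only [W, hp', dif_pos]
  · refine eq_univ_of_forall fun x => ?_
    obtain ⟨S, hS, hxS⟩ := hsA (mem_univ x)
    have hSs : S ∈ s := hS
    have hne : (T (S, total F n M S x)).Nonempty := ⟨x, hxS, rfl⟩
    have hpP : (S, total F n M S x) ∈ P := by
      refine Finset.mem_filter.2 ⟨Finset.mem_product.2 ⟨hSs, ?_⟩, hne⟩
      exact Finset.mem_range.2 (Nat.lt_succ_of_le (total_le F n M S x))
    refine ⟨W (S, total F n M S x), Finset.mem_coe.2 (Finset.mem_image_of_mem W hpP), ?_⟩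
    have hW : W (S, total F n M S x) =
        ⋂ i : Fin n, F^[(i : ℕ)] ⁻¹' a (F^[(i : ℕ)] hne.choose) := by
      simp only [W, hne, dif_pos]
    rw [hW]
    simp only [mem_iInter, mem_preimage]
    intro i
    apply ha
    rw [Metric.mem_ball]
    exact (dist_of_total hM (hsM S hSs) hxS hne.choose_spec.1 hne.choose_spec.2.symm i.2).trans hδ

theorem entropy_le_zero (F : I → I) (C D : ℕ) (h : ∀ n, Cov F n univ (C * n + D)) :
    entropy F ≤ 0 := by
  refine iSup₂_le fun U hU => ?_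
  obtain ⟨hUo, hUu⟩ := hU
  obtain ⟨δ, hδ, hball⟩ := lebesgue_number_lemma_of_metric_sUnion (isCompact_univ (X := I)) hUo
    (by rw [hUu])
  obtain ⟨M, hM⟩ := exists_nat_gt (1 / δ)
  have hM0 : (0 : ℝ) < M := lt_trans (by positivity) hM
  have hM1 : 1 ≤ M := by
    rcases Nat.eq_zero_or_pos M with h0 | h0
    · rw [h0] at hM0; simp at hM0
    · exact h0
  have hMδ : 1 / (M : ℝ) < δ := by
    rw [div_lt_iff₀ hM0]
    rw [div_lt_iff₀ hδ] at hM
    linarith
  have hbd : ∀ n : ℕ, minCover (join F U n) ≤ (C + D + 1) * M * (n + 1) ^ 2 := by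
    intro n
    refine (minCover_le hM1 hMδ (fun x => hball x (mem_univ x)) (h n)).trans ?_
    have h1 : C * n + D ≤ (C + D + 1) * (n + 1) := by nlinarith
    have h2 : n * M + 1 ≤ M * (n + 1) := by nlinarith
    calc (C * n + D) * (n * M + 1) ≤ ((C + D + 1) * (n + 1)) * (M * (n + 1)) :=
          Nat.mul_le_mul h1 h2
      _ = _ := by ring
  set K : ℝ := ((C + D + 1 : ℕ) : ℝ) * M with hK
  have hKpos : 1 ≤ K := by
    have : 1 ≤ (C + D + 1) * M := Nat.mul_pos (by omega) hM1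
    rw [hK]
    exact_mod_cast this
  have hlog : ∀ n : ℕ, Real.log (minCover (join F U n)) / n ≤
      (Real.log K + 2 * Real.log (n + 1)) / n := by
    intro n
    apply div_le_div_of_nonneg_right _ (Nat.cast_nonneg n)
    have hn1 : (1 : ℝ) ≤ (n : ℝ) + 1 := by
      have : (0 : ℝ) ≤ n := Nat.cast_nonneg n
      linarith
    have hpos : 1 ≤ K * ((n : ℝ) + 1) ^ 2 := by nlinarith [one_le_pow₀ hn1 (n := 2)]
    have heq : Real.log K + 2 * Real.log (n + 1) = Real.log (K * ((n : ℝ) + 1) ^ 2) := by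
      rw [Real.log_mul (x := K) (y := ((n : ℝ) + 1) ^ 2) (by positivity) (by positivity),
        Real.log_pow]
      norm_num
    rw [heq]
    have hcast : ((minCover (join F U n) : ℕ) : ℝ) ≤ K * ((n : ℝ) + 1) ^ 2 := by
      have := hbd n
      rw [hK]
      exact_mod_cast this
    rcases Nat.eq_zero_or_pos (minCover (join F U n)) with h0 | h0
    · rw [h0]
      simp only [Nat.cast_zero, Real.log_zero]
      exact Real.log_nonneg hpos
    · exact Real.log_le_log (by exact_mod_cast h0) hcast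
  have htend : Tendsto (fun n : ℕ => (Real.log K + 2 * Real.log (n + 1)) / (n : ℝ)) atTop
      (𝓝 0) := by
    have t1 : Tendsto (fun n : ℕ => Real.log K / (n : ℝ)) atTop (𝓝 0) :=
      tendsto_const_div_atTop_nhds_zero_nat _
    have t2 : Tendsto (fun n : ℕ => Real.log ((n : ℝ) + 1) ^ 1 / (1 * ((n : ℝ) + 1) + (-1))) atTop
        (𝓝 0) :=
      (Real.tendsto_pow_log_div_mul_add_atTop 1 (-1) 1 one_ne_zero).comp
        (tendsto_atTop_add_const_right _ _ tendsto_natCast_atTop_atTop)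
    have t3 := t1.add (t2.const_mul 2)
    simp only [mul_zero, add_zero] at t3
    refine t3.congr fun n => ?_
    rw [pow_one, one_mul, add_neg_cancel_right]
    ring
  unfold entropyOf
  have h1 : limsup (fun n : ℕ => ((Real.log (minCover (join F U n)) / n : ℝ) : EReal)) atTop ≤
      limsup (fun n : ℕ => (((Real.log K + 2 * Real.log (n + 1)) / n : ℝ) : EReal)) atTop :=
    limsup_le_limsup (Eventually.of_forall fun n => EReal.coe_le_coe_iff.2 (hlog n))
      (by isBoundedDefault) (by isBoundedDefault)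
  refine h1.trans (le_of_eq ?_)
  have h2 : Tendsto (fun n : ℕ => (((Real.log K + 2 * Real.log (n + 1)) / n : ℝ) : EReal)) atTop
      (𝓝 ((0 : ℝ) : EReal)) := (continuous_coe_real_ereal.tendsto 0).comp htend
  exact h2.limsup_eq

/-! ### The two compositions -/

/-- The parameters. -/
noncomputable def a₁ : Icc (1 : ℝ) 4 := ⟨12 / 5, by norm_num, by norm_num⟩
/-- The parameters. -/
noncomputable def a₂ : Icc (1 : ℝ) 4 := ⟨6 / 5, by norm_num, by norm_num⟩
/-- The parameters. -/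
noncomputable def a₃ : Icc (1 : ℝ) 4 := ⟨4, by norm_num, by norm_num⟩

/-- The value of `f₃ ∘ f₂`. -/
noncomputable def yy (x : ℝ) : ℝ := 4 * (6 / 5 * x * (1 - x)) * (1 - 6 / 5 * x * (1 - x))

/-- The value of `f₁`. -/
noncomputable def gg (y : ℝ) : ℝ := 12 / 5 * y * (1 - y)

/-- The composition of entropy zero. -/
noncomputable def Gmap : I → I := logistic a₁ ∘ logistic a₃ ∘ logistic a₂

theorem Gmap_coe (x : I) : ((Gmap x : I) : ℝ) = gg (yy x) := by
  simp only [Gmap, Function.comp_apply, logistic, a₁, a₂, a₃, gg, yy]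

theorem u_bound {x : ℝ} (h0 : 0 ≤ x) (h1 : x ≤ 1) :
    0 ≤ 6 / 5 * x * (1 - x) ∧ 6 / 5 * x * (1 - x) ≤ 3 / 10 := by
  constructor
  · have := mul_nonneg h0 (sub_nonneg.2 h1)
    nlinarith
  · nlinarith [sq_nonneg (x - 1 / 2)]

theorem v_mono {u v : ℝ} (huv : u ≤ v) (hv : v ≤ 3 / 10) :
    4 * u * (1 - u) ≤ 4 * v * (1 - v) := by
  nlinarith [mul_nonneg (sub_nonneg.2 huv) (by linarith : (0 : ℝ) ≤ 1 - u - v)]

theorem yy_mono {a b : ℝ} (ha : 0 ≤ a) (hab : a ≤ b) (hb : b ≤ 1 / 2) : yy a ≤ yy b := by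
  have h1 : 6 / 5 * a * (1 - a) ≤ 6 / 5 * b * (1 - b) := by
    nlinarith [mul_nonneg (sub_nonneg.2 hab) (by linarith : (0 : ℝ) ≤ 1 - a - b)]
  exact v_mono h1 (u_bound (ha.trans hab) (by linarith)).2

theorem yy_anti {a b : ℝ} (ha : 1 / 2 ≤ a) (hab : a ≤ b) (hb : b ≤ 1) : yy b ≤ yy a := by
  have h1 : 6 / 5 * b * (1 - b) ≤ 6 / 5 * a * (1 - a) := by
    nlinarith [mul_nonneg (sub_nonneg.2 hab) (by linarith : (0 : ℝ) ≤ a + b - 1)]
  exact v_mono h1 (u_bound (by linarith) (by linarith)).2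

theorem yy_le {x : ℝ} (h0 : 0 ≤ x) (h1 : x ≤ 1) : yy x ≤ 21 / 25 := by
  have h := u_bound h0 h1
  have := v_mono (u := 6 / 5 * x * (1 - x)) (v := 3 / 10) h.2 le_rfl
  unfold yy
  linarith

theorem gg_mono {a b : ℝ} (hab : a ≤ b) (hb : b ≤ 1 / 2) : gg a ≤ gg b := by
  unfold gg
  nlinarith [mul_nonneg (sub_nonneg.2 hab) (by linarith : (0 : ℝ) ≤ 1 - a - b)]

theorem gg_anti {a b : ℝ} (ha : 1 / 2 ≤ a) (hab : a ≤ b) : gg b ≤ gg a := by
  unfold gg
  nlinarith [mul_nonneg (sub_nonneg.2 hab) (by linarith : (0 : ℝ) ≤ a + b - 1)]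

theorem gg_le (y : ℝ) : gg y ≤ 3 / 5 := by
  unfold gg
  nlinarith [sq_nonneg (y - 1 / 2)]

theorem gg_ge {y : ℝ} (h1 : 1 / 2 ≤ y) (h2 : y ≤ 21 / 25) : 1008 / 3125 ≤ gg y := by
  have := gg_anti h1 h2
  unfold gg at *
  linarith

theorem yy_big {x : ℝ} (h1 : 1008 / 3125 ≤ x) (h2 : x ≤ 3 / 5) : 3 / 4 ≤ yy x := by
  have h3 : (26 : ℝ) / 100 ≤ 6 / 5 * x * (1 - x) := by
    nlinarith [mul_nonneg (sub_nonneg.2 h1) (by linarith : (0 : ℝ) ≤ 3 / 5 + 2 / 25 - x)]
  have := v_mono h3 (u_bound (by linarith) (by linarith)).2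
  unfold yy
  linarith

def setE : Set I := {x | (x : ℝ) ≤ 1 / 2 ∧ yy x ≤ 1 / 2}
def setR : Set I := {x | (x : ℝ) ≤ 1 / 2 ∧ 1 / 2 ≤ yy x}
def setR' : Set I := {x | 1 / 2 ≤ (x : ℝ) ∧ 1 / 2 ≤ yy x}
def setE' : Set I := {x | 1 / 2 ≤ (x : ℝ) ∧ yy x ≤ 1 / 2}
def setK : Set I := {x | 1008 / 3125 ≤ (x : ℝ) ∧ (x : ℝ) ≤ 1 / 2}
def setK' : Set I := {x | 1 / 2 ≤ (x : ℝ) ∧ (x : ℝ) ≤ 3 / 5}

theorem monoE : MonotoneOn Gmap setE := by
  intro x hx y hy hxy
  show ((Gmap x : I) : ℝ) ≤ Gmap y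
  rw [Gmap_coe, Gmap_coe]
  exact gg_mono (yy_mono x.2.1 hxy hy.1) hy.2

theorem antiR : AntitoneOn Gmap setR := by
  intro x hx y hy hxy
  show ((Gmap y : I) : ℝ) ≤ Gmap x
  rw [Gmap_coe, Gmap_coe]
  exact gg_anti hx.2 (yy_mono x.2.1 hxy hy.1)

theorem monoR' : MonotoneOn Gmap setR' := by
  intro x hx y hy hxy
  show ((Gmap x : I) : ℝ) ≤ Gmap y
  rw [Gmap_coe, Gmap_coe]
  exact gg_anti hy.2 (yy_anti hx.1 hxy y.2.2)

theorem antiE' : AntitoneOn Gmap setE' := by
  intro x hx y hy hxy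
  show ((Gmap y : I) : ℝ) ≤ Gmap x
  rw [Gmap_coe, Gmap_coe]
  exact gg_mono (yy_anti hx.1 hxy y.2.2) hx.2

theorem K_sub : setK ⊆ setR := fun x hx => ⟨hx.2, by
  have := yy_big hx.1 (by linarith [hx.2])
  linarith⟩

theorem K'_sub : setK' ⊆ setR' := fun x hx => ⟨hx.1, by
  have := yy_big (by linarith [hx.1]) hx.2
  linarith⟩

theorem maps_of_half {x : I} (h : 1 / 2 ≤ yy x) : Gmap x ∈ setK ∪ setK' := by
  have h1 := gg_ge h (yy_le x.2.1 x.2.2)
  have h2 := gg_le (yy x)
  rw [← Gmap_coe] at h1 h2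
  rcases le_total ((Gmap x : I) : ℝ) (1 / 2) with h3 | h3
  · exact Or.inl ⟨h1, h3⟩
  · exact Or.inr ⟨h3, h2⟩

theorem mapsR : MapsTo Gmap setR (setK ∪ setK') := fun _ hx => maps_of_half hx.2

theorem mapsR' : MapsTo Gmap setR' (setK ∪ setK') := fun _ hx => maps_of_half hx.2

theorem maps_to_K {x : I} (h1 : 1008 / 3125 ≤ (x : ℝ)) (h2 : (x : ℝ) ≤ 3 / 5) :
    Gmap x ∈ setK := by
  have h3 := yy_big h1 h2
  have h4 := gg_ge (by linarith) (yy_le x.2.1 x.2.2)
  have h5 : gg (yy x) ≤ 1 / 2 := by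
    by_contra hc
    have h6 := gg_anti (by norm_num : (1 : ℝ) / 2 ≤ 3 / 4) h3
    unfold gg at h6 hc
    have h7 := yy_le x.2.1 x.2.2
    nlinarith
  rw [← Gmap_coe] at h4 h5
  exact ⟨h4, h5⟩

theorem mapsE {S : Set I} : MapsTo Gmap S (setE ∪ (setR ∪ setK')) := by
  intro x _
  have h2 := gg_le (yy x)
  rw [← Gmap_coe] at h2
  rcases le_total ((Gmap x : I) : ℝ) (1 / 2) with h3 | h3
  · rcases le_total (yy (Gmap x)) (1 / 2) with h4 | h4
    · exact Or.inl ⟨h3, h4⟩
    · exact Or.inr (Or.inl ⟨h3, h4⟩)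
  · exact Or.inr (Or.inr ⟨h3, h2⟩)

theorem covK : ∀ n, Cov Gmap n setK 1 := by
  intro n
  induction n with
  | zero => exact cov_zero _ _
  | succ n ih =>
    exact ih.step (Or.inr (antiR.mono K_sub))
      (fun x hx => maps_to_K hx.1 (by linarith [hx.2]))

theorem covK' : ∀ n, Cov Gmap n setK' 1 := by
  intro n
  cases n with
  | zero => exact cov_zero _ _
  | succ n =>
    exact (covK n).step (Or.inl (monoR'.mono K'_sub))
      (fun x hx => maps_to_K (by linarith [hx.1]) hx.2)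

theorem covR : ∀ n, Cov Gmap n setR 2 := by
  intro n
  cases n with
  | zero => exact (cov_zero _ _).of_le subset_rfl (by omega)
  | succ n => exact ((covK n).union (covK' n)).step (Or.inr antiR) mapsR

theorem covR' : ∀ n, Cov Gmap n setR' 2 := by
  intro n
  cases n with
  | zero => exact (cov_zero _ _).of_le subset_rfl (by omega)
  | succ n => exact ((covK n).union (covK' n)).step (Or.inl monoR') mapsR'

theorem covE : ∀ n, Cov Gmap n setE (3 * n + 1) := by
  intro n
  induction n with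
  | zero => exact (cov_zero _ _).of_le subset_rfl (by omega)
  | succ n ih => exact (ih.union ((covR n).union (covK' n))).step (Or.inl monoE) mapsE

theorem covE' : ∀ n, Cov Gmap n setE' (3 * n + 4) := by
  intro n
  cases n with
  | zero => exact (cov_zero _ _).of_le subset_rfl (by omega)
  | succ n =>
    exact (((covE n).union ((covR n).union (covK' n))).step (Or.inr antiE') mapsE).of_le
      subset_rfl (by omega)

theorem entropy_G : entropy Gmap ≤ 0 := by
  refine entropy_le_zero Gmap 6 9 fun n => ?_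
  refine (((covE n).union (covR n)).union ((covR' n).union (covE' n))).of_le ?_ (by omega)
  intro x _
  rcases le_total (x : ℝ) (1 / 2) with h1 | h1 <;> rcases le_total (yy x) (1 / 2) with h2 | h2
  · exact Or.inl (Or.inl ⟨h1, h2⟩)
  · exact Or.inl (Or.inr ⟨h1, h2⟩)
  · exact Or.inr (Or.inr ⟨h1, h2⟩)
  · exact Or.inr (Or.inl ⟨h1, h2⟩)

/-- The composition with a horseshoe. -/
noncomputable def Fmap : I → I := logistic a₁ ∘ logistic a₂ ∘ logistic a₃

/-- The values of the composition with a horseshoe. -/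
noncomputable def ff (x : ℝ) : ℝ :=
  12 / 5 * (6 / 5 * (4 * x * (1 - x)) * (1 - 4 * x * (1 - x))) *
    (1 - 6 / 5 * (4 * x * (1 - x)) * (1 - 4 * x * (1 - x)))

theorem Fmap_coe (x : I) : ((Fmap x : I) : ℝ) = ff x := by
  simp only [Fmap, Function.comp_apply, logistic, a₁, a₂, a₃, ff]

theorem ff_cont : Continuous ff := by
  unfold ff
  fun_prop

theorem entropy_F : ((Real.log 2 : ℝ) : EReal) ≤ entropy Fmap := by
  refine entropy_ge Fmap {x | (x : ℝ) ≤ 1 / 2} {x | (x : ℝ) ≤ 7 / 50}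
    {x | 3 / 20 ≤ (x : ℝ) ∧ (x : ℝ) ≤ 1 / 2} ⟨0, by norm_num, by norm_num⟩ ?_ ?_ ?_ ?_ ?_ ?_ ?_ ?_
  · show (0 : ℝ) ≤ 1 / 2
    norm_num
  · intro x hx
    have : (x : ℝ) ≤ 7 / 50 := hx
    show (x : ℝ) ≤ 1 / 2
    linarith
  · intro x hx
    exact hx.2
  · intro y hy
    have hy' : (y : ℝ) ≤ 1 / 2 := hy
    have h := intermediate_value_Icc (by norm_num : (0 : ℝ) ≤ 7 / 50) ff_cont.continuousOn
    have hmem : (y : ℝ) ∈ Icc (ff 0) (ff (7 / 50)) := by
      constructor
      · have := y.2.1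
        unfold ff
        norm_num
        exact this
      · unfold ff
        norm_num
        linarith
    obtain ⟨x, hx, hxy⟩ := h hmem
    refine ⟨⟨x, hx.1, by linarith [hx.2]⟩, hx.2, ?_⟩
    exact Subtype.ext ((Fmap_coe _).trans hxy)
  · intro y hy
    have hy' : (y : ℝ) ≤ 1 / 2 := hy
    have h := intermediate_value_Icc' (by norm_num : (3 / 20 : ℝ) ≤ 1 / 2) ff_cont.continuousOn
    have hmem : (y : ℝ) ∈ Icc (ff (1 / 2)) (ff (3 / 20)) := by
      constructor
      · have := y.2.1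
        unfold ff
        norm_num
        exact this
      · unfold ff
        norm_num
        linarith
    obtain ⟨x, hx, hxy⟩ := h hmem
    refine ⟨⟨x, by linarith [hx.1], by linarith [hx.2]⟩, ⟨hx.1, hx.2⟩, ?_⟩
    exact Subtype.ext ((Fmap_coe _).trans hxy)
  · rw [Set.disjoint_left]
    intro x hx hx'
    have h1 : (x : ℝ) ≤ 7 / 50 := hx
    have h2 : (3 / 20 : ℝ) ≤ x := hx'.1
    linarith
  · exact isClosed_le continuous_subtype_val continuous_const
  · exact (isClosed_le continuous_const continuous_subtype_val).inter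
      (isClosed_le continuous_subtype_val continuous_const)

/-- There are parameters `a₁, a₂, a₃ ∈ [1, 4]` such that the topological entropy of
`f₁ ∘ f₂ ∘ f₃` is different from that of `f₁ ∘ f₃ ∘ f₂`. -/
theorem result : ∃ a₁ a₂ a₃ : Icc (1 : ℝ) 4,
    entropy (logistic a₁ ∘ logistic a₂ ∘ logistic a₃) ≠
      entropy (logistic a₁ ∘ logistic a₃ ∘ logistic a₂) := by
  refine ⟨a₁, a₂, a₃, fun h => ?_⟩
  have h1 := entropy_F
  have h2 := entropy_G
  unfold Fmap at h1
  unfold Gmap at h2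
  rw [h] at h1
  have h3 : ((Real.log 2 : ℝ) : EReal) ≤ ((0 : ℝ) : EReal) := h1.trans h2
  rw [EReal.coe_le_coe_iff] at h3
  have h4 := Real.log_pos (by norm_num : (1 : ℝ) < 2)
  linarith

end Pool.Agent.Results.MP_3cd2af_an.ReorderedLogistic
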